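import Pool.Agent.W780.BB.Stm

set_option autoImplicit false
set_option linter.all false

namespace Pool.Agent.W347.BB

open Complex Set MeasureTheory Filter Topology Pool.Agent.W780.PG Pool.Agent.W780.BB

open scoped Real ComplexConjugate

variable {n : ℕ}

theorem dir_add (a b : ℝ) : dir (a + b) = dir a * dir b := by
  unfold dir
  rw [← Complex.exp_add]
  congr 1
  push_cast
  ring

theorem conj_dir (a : ℝ) : conj (dir a) = dir (-a) := by
  unfold dir
  rw [← Complex.exp_conj]
  congr 1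
  simp

theorem dir_zero : dir 0 = 1 := by simp [dir]

theorem dir_mul_conj (a : ℝ) : dir a * conj (dir a) = 1 := by
  rw [conj_dir, ← dir_add, add_neg_cancel, dir_zero]

theorem norm_dir (a : ℝ) : ‖dir a‖ = 1 := by
  unfold dir
  exact Complex.norm_exp_ofReal_mul_I a

theorem exists_third (i : Fin (n + 3)) : ∃ j : Fin (n + 3), j ≠ i ∧ j ≠ i + 1 := by
  by_contra h
  push Not at h
  have h1 : (Finset.univ : Finset (Fin (n + 3))) ⊆ {i, i + 1} := by
    intro j _
    rw [Finset.mem_insert, Finset.mem_singleton]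
    by_cases hj : j = i
    · exact Or.inl hj
    · exact Or.inr (h j hj)
  have h2 := Finset.card_le_card h1
  rw [Finset.card_univ, Fintype.card_fin] at h2
  have h3 := Finset.card_le_two (a := i) (b := i + 1)
  omega

theorem d_ne {p : Fin (n + 3) → ℂ} (hp : IsConvexPolygon p) (i : Fin (n + 3)) :
    p (i + 1) - p i ≠ 0 := by
  intro h
  obtain ⟨j, h1, h2⟩ := exists_third i
  have := hp.pos i j h1 h2
  unfold lft at this
  rw [h] at this
  simp at this

theorem conj_d_mul (p : Fin (n + 3) → ℂ) (i : Fin (n + 3)) :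
    conj (p (i + 1) - p i) * dir (2 * tau p i) = p (i + 1) - p i := by
  have h1 : ((‖p (i + 1) - p i‖ : ℝ) : ℂ) * dir (tau p i) = p (i + 1) - p i :=
    Complex.norm_mul_exp_arg_mul_I _
  have h2 : dir (2 * tau p i) = dir (tau p i) * dir (tau p i) := by
    rw [← dir_add]; congr 1; ring
  have h3 := dir_mul_conj (tau p i)
  rw [h2]
  calc conj (p (i + 1) - p i) * (dir (tau p i) * dir (tau p i))
      = conj (((‖p (i + 1) - p i‖ : ℝ) : ℂ) * dir (tau p i)) * (dir (tau p i) * dir (tau p i)) := by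
        rw [h1]
    _ = ((‖p (i + 1) - p i‖ : ℝ) : ℂ) * (dir (tau p i) * conj (dir (tau p i))) * dir (tau p i) := by
        rw [map_mul, Complex.conj_ofReal]; ring
    _ = p (i + 1) - p i := by rw [h3, mul_one, h1]

theorem rf_rf (p : Fin (n + 3) → ℂ) (i : Fin (n + 3)) (z : ℂ) : rf p i (rf p i z) = z := by
  unfold rf
  have h3 := dir_mul_conj (2 * tau p i)
  rw [add_sub_cancel_left, map_mul, Complex.conj_conj, ← mul_assoc, h3, one_mul]
  ring

theorem rf_sub (p : Fin (n + 3) → ℂ) (i : Fin (n + 3)) (z w : ℂ) :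
    rf p i z - rf p i w = dir (2 * tau p i) * conj (z - w) := by
  unfold rf
  simp only [map_sub]
  ring

theorem rf_norm (p : Fin (n + 3) → ℂ) (i : Fin (n + 3)) (z w : ℂ) :
    ‖rf p i z - rf p i w‖ = ‖z - w‖ := by
  rw [rf_sub, norm_mul, norm_dir, one_mul, Complex.norm_conj]

theorem sf_rf (p : Fin (n + 3) → ℂ) (i : Fin (n + 3)) (z : ℂ) :
    sf p i (rf p i z) = - sf p i z := by
  unfold sf lft rf
  rw [add_sub_cancel_left, ← mul_assoc, conj_d_mul]
  have : (p (i + 1) - p i) * conj (z - p i) = conj (conj (p (i + 1) - p i) * (z - p i)) := by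
    rw [map_mul, Complex.conj_conj]
  rw [this, Complex.conj_im]

theorem rf_of_sf {p : Fin (n + 3) → ℂ} (hp : IsConvexPolygon p) (i : Fin (n + 3)) (z : ℂ)
    (h : sf p i z = 0) : rf p i z = z := by
  unfold sf lft at h
  have h1 : conj (conj (p (i + 1) - p i) * (z - p i)) = conj (p (i + 1) - p i) * (z - p i) :=
    Complex.conj_eq_iff_im.mpr h
  rw [map_mul, Complex.conj_conj] at h1
  have hd := d_ne hp i
  have hd' : conj (p (i + 1) - p i) ≠ 0 := by
    intro h0
    apply hd
    rw [← Complex.conj_conj (p (i + 1) - p i), h0, map_zero]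
  have h2 : dir (2 * tau p i) * conj (z - p i) = z - p i := by
    apply mul_left_cancel₀ hd'
    rw [← mul_assoc, conj_d_mul, h1]
  unfold rf
  rw [h2]
  ring

theorem rf_dir (p : Fin (n + 3) → ℂ) (i : Fin (n + 3)) (z : ℂ) (s θ : ℝ) :
    rf p i (z + s • dir θ) = rf p i z + s • dir (2 * tau p i - θ) := by
  have h1 : dir (2 * tau p i - θ) = dir (2 * tau p i) * conj (dir θ) := by
    rw [conj_dir, ← dir_add]; congr 1
  rw [h1]
  unfold rf
  simp only [Complex.real_smul, map_sub, map_add, map_mul, Complex.conj_ofReal]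
  ring

theorem rf_line (p : Fin (n + 3) → ℂ) (i : Fin (n + 3)) (z w : ℂ) (s : ℝ) :
    rf p i (z + s • (w - z)) = rf p i z + s • (rf p i w - rf p i z) := by
  unfold rf
  simp only [Complex.real_smul, map_sub, map_add, map_mul, Complex.conj_ofReal]
  ring

theorem fp_uf (p : Fin (n + 3) → ℂ) (w : List (Fin (n + 3))) : ∀ z : ℂ, fp p w (uf p w z) = z := by
  induction w with
  | nil => intro z; rfl
  | cons i w ih =>
    intro z
    show fp p w (rf p i (rf p i (uf p w z))) = z
    rw [rf_rf, ih]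

theorem uf_fp (p : Fin (n + 3) → ℂ) (w : List (Fin (n + 3))) : ∀ z : ℂ, uf p w (fp p w z) = z := by
  induction w with
  | nil => intro z; rfl
  | cons i w ih =>
    intro z
    show rf p i (uf p w (fp p w (rf p i z))) = z
    rw [ih, rf_rf]

theorem fp_norm (p : Fin (n + 3) → ℂ) (w : List (Fin (n + 3))) :
    ∀ z z' : ℂ, ‖fp p w z - fp p w z'‖ = ‖z - z'‖ := by
  induction w with
  | nil => intro z z'; rfl
  | cons i w ih =>
    intro z z'
    show ‖fp p w (rf p i z) - fp p w (rf p i z')‖ = _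
    rw [ih, rf_norm]

theorem fd_fst (p : Fin (n + 3) → ℂ) (w : List (Fin (n + 3))) :
    ∀ (z : ℂ) (θ : ℝ), (fd p w (z, θ)).1 = fp p w z := by
  induction w with
  | nil => intro z θ; rfl
  | cons i w ih =>
    intro z θ
    exact ih (rf p i z) (2 * tau p i - θ)

theorem fp_line (p : Fin (n + 3) → ℂ) (w : List (Fin (n + 3))) :
    ∀ (z z' : ℂ) (s : ℝ), fp p w (z + s • (z' - z)) = fp p w z + s • (fp p w z' - fp p w z) := by
  induction w with
  | nil => intro z z' s; rfl
  | cons i w ih =>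
    intro z z' s
    show fp p w (rf p i (z + s • (z' - z))) = fp p w (rf p i z) + s • (fp p w (rf p i z') - fp p w (rf p i z))
    rw [rf_line, ih]

theorem fd_dir (p : Fin (n + 3) → ℂ) (w : List (Fin (n + 3))) :
    ∃ (e c : ℝ), e = (-1) ^ w.length ∧ ∀ z θ, (fd p w (z, θ)).2 = e * θ + c ∧
    ∀ s : ℝ, fp p w (z + s • dir θ) = fp p w z + s • dir (e * θ + c) := by
  induction w with
  | nil =>
    refine ⟨1, 0, by simp, fun z θ => ⟨?_, fun s => ?_⟩⟩
    · show θ = 1 * θ + 0
      ring
    · show z + s • dir θ = z + s • dir (1 * θ + 0)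
      rw [one_mul, add_zero]
  | cons i w ih =>
    obtain ⟨e, c, he, h⟩ := ih
    refine ⟨-e, e * (2 * tau p i) + c, ?_, fun z θ => ⟨?_, fun s => ?_⟩⟩
    · rw [he, List.length_cons, pow_succ]; ring
    · have := (h (rf p i z) (2 * tau p i - θ)).1
      show (fd p w (rf p i z, 2 * tau p i - θ)).2 = _
      rw [this]; ring
    · show fp p w (rf p i (z + s • dir θ)) = fp p w (rf p i z) + _
      rw [rf_dir, (h (rf p i z) (2 * tau p i - θ)).2 s]
      congr 3
      ring

theorem VK_finite (p : Fin (n + 3) → ℂ) (K : ℕ) : (VK p K).Finite := by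
  have h1 : {w : List (Fin (n + 3)) | w.length ≤ K}.Finite := List.finite_length_le _ _
  have h2 : ({w : List (Fin (n + 3)) | w.length ≤ K} ×ˢ (univ : Set (Fin (n + 3)))).Finite :=
    h1.prod (Set.toFinite _)
  refine (h2.image (fun x => uf p x.1 (p x.2))).subset ?_
  rintro a ⟨w, hw, j, rfl⟩
  exact ⟨(w, j), ⟨hw, mem_univ _⟩, rfl⟩

theorem ref : S_Ref := by
  intro n p hp
  exact ⟨rf_rf p, rf_norm p, sf_rf p, fun i z => rf_of_sf hp i z, rf_dir p, rf_line p,
    fun w z => ⟨fp_uf p w z, uf_fp p w z⟩, fp_norm p, fd_fst p, fp_line p, fd_dir p, VK_finite p⟩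

end Pool.Agent.W347.BB
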